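import Pool.Agent.MP_cce4c9_lc.H7.BaseA

/-! The orders modulo `l` of the function attached to the Frobenius. -/

set_option autoImplicit false

open WithZero Finsupp

namespace Pool.Agent.MP_cce4c9_lc.H83

open Pool.Agent.MP_cce4c9_lc.H87 Pool.Agent.MP_cce4c9_lc.H7

section Lg

variable {Γ : Type} [LinearOrderedCommGroupWithZero Γ] {t : Γ} {p l : ℕ}

/-- `v` is a power of `t` whose exponent has a `p`-power denominator and is `c` modulo `l`. -/
def Lg (t : Γ) (p l : ℕ) (v : Γ) (c : ZMod l) : Prop :=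
  ∃ (i : ℕ) (n : ℤ), v ^ p ^ i = t ^ n ∧ (n : ZMod l) = (p : ZMod l) ^ i * c

theorem Lg.base (n : ℤ) : Lg t p l (t ^ n) n := ⟨0, n, by simp, by simp⟩

theorem Lg.one : Lg t p l 1 0 := ⟨0, 0, by simp, by simp⟩

theorem up {v : Γ} {i : ℕ} {n : ℤ} (h : v ^ p ^ i = t ^ n) (m : ℕ) :
    v ^ p ^ (i + m) = t ^ (n * p ^ m) := by
  rw [pow_add, pow_mul, h, zpow_mul, ← Nat.cast_pow, zpow_natCast]

theorem Lg.mul (ht : t ≠ 0) {v v' : Γ} {c c' : ZMod l} (h : Lg t p l v c) (h' : Lg t p l v' c') :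
    Lg t p l (v * v') (c + c') := by
  obtain ⟨i, n, h1, h2⟩ := h
  obtain ⟨i', n', h1', h2'⟩ := h'
  refine ⟨i + i', n * p ^ i' + n' * p ^ i, ?_, ?_⟩
  · rw [mul_pow, up h1, add_comm i, up h1', zpow_add₀ ht]
  · push_cast
    rw [h2, h2']; ring

theorem Lg.zpow {v : Γ} {c : ZMod l} (h : Lg t p l v c) (m : ℤ) : Lg t p l (v ^ m) (m * c) := by
  obtain ⟨i, n, h1, h2⟩ := h
  refine ⟨i, n * m, ?_, ?_⟩
  · rw [zpow_mul, ← h1, ← zpow_natCast, ← zpow_natCast, ← zpow_mul, ← zpow_mul, mul_comm]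
  · push_cast
    rw [h2]; ring

theorem Lg.uniq [Fact l.Prime] (ht : t ≠ 0) (ht1 : t < 1) (hp : (p : ZMod l) ≠ 0) {v : Γ}
    {c c' : ZMod l} (h : Lg t p l v c) (h' : Lg t p l v c') : c = c' := by
  obtain ⟨i, n, h1, h2⟩ := h
  obtain ⟨i', n', h1', h2'⟩ := h'
  have e := up h1 i'
  rw [add_comm i, up h1'] at e
  have e2 := zpow_right_injective₀ (zero_lt_iff.2 ht) ht1.ne e
  have e3 := congrArg (Int.cast : ℤ → ZMod l) e2
  push_cast at e3
  rw [h2, h2'] at e3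
  refine mul_left_cancel₀ (pow_ne_zero (i + i') hp) ?_
  rw [pow_add]
  linear_combination -e3

theorem Lg.root [Fact l.Prime] (hp : (p : ZMod l) ≠ 0) {v : Γ} {i : ℕ} {n : ℤ}
    (h : v ^ p ^ i = t ^ n) : Lg t p l (v ^ (l : ℤ)) 0 := by
  have h1 : Lg t p l v (n / (p : ZMod l) ^ i) := ⟨i, n, h, by field_simp⟩
  simpa using h1.zpow l

theorem prod_split {α : Type} (g : α → Γ) (hg : ∀ w, g w ≠ 0) (a b : α) (m : ℤ) (E : α →₀ ℤ) :
    ((single a 1 - single b 1 + m • E : α →₀ ℤ).prod fun w n => g w ^ n) =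
      g a * g b ^ (-1 : ℤ) * (E.prod fun w n => g w ^ n) ^ m := by
  have h0 : ∀ w, g w ^ (0 : ℤ) = 1 := fun w => zpow_zero _
  have h1 : ∀ w (n n' : ℤ), g w ^ (n + n') = g w ^ n * g w ^ n' := fun w => zpow_add₀ (hg w)
  rw [sub_eq_add_neg, ← single_neg, prod_add_index' h0 h1, prod_add_index' h0 h1,
    prod_single_index (h := fun w n => g w ^ n) (h0 a),
    prod_single_index (h := fun w n => g w ^ n) (h0 b), zpow_one,
    prod_of_support_subset _ support_smul _ fun w _ => h0 w, Finsupp.prod, ← Finset.prod_zpow]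
  congr 1
  exact Finset.prod_congr rfl fun w _ => by
    rw [Finsupp.smul_apply, smul_eq_mul, mul_comm, zpow_mul]

end Lg

section KP

variable {k L Ω : Type} [Field k] [Field L] [Field Ω] [Algebra k L] [Algebra k Ω] [Algebra L Ω]
  [IsScalarTower k L Ω]

theorem exists_P [IsAlgClosed k] (hC : StmtCHEV) (y : Place k L) (hy : y.Res) :
    ∃ P : KP k Ω, ∀ a : L, y.val a ≤ 1 → P.Rd (algebraMap L Ω a) (y.ev a) := by
  let G : Subring (Ω × k) :=
    { carrier := {z | ∃ a : L, y.val a ≤ 1 ∧ z = (algebraMap L Ω a, y.ev a)}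
      mul_mem' := by
        rintro _ _ ⟨a, ha, rfl⟩ ⟨b, hb, rfl⟩
        exact ⟨a * b, by rw [map_mul]; exact mul_le_one' ha hb, by
          rw [map_mul, hy.ev_mul ha hb]; rfl⟩
      one_mem' := ⟨1, by simp, by rw [map_one, y.ev_one]; rfl⟩
      add_mem' := by
        rintro _ _ ⟨a, ha, rfl⟩ ⟨b, hb, rfl⟩
        exact ⟨a + b, y.val.map_add_le ha hb, by rw [map_add, hy.ev_add ha hb]; rfl⟩
      zero_mem' := ⟨0, by simp, by rw [map_zero, y.ev_zero]; rfl⟩
      neg_mem' := by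
        rintro _ ⟨a, ha, rfl⟩
        exact ⟨-a, by simpa using ha, by rw [map_neg, hy.ev_neg ha]; rfl⟩ }
  obtain ⟨P, hP⟩ := hC k Ω G
    (fun c => ⟨algebraMap k L c, y.const_le c, by
      rw [y.ev_const, ← IsScalarTower.algebraMap_apply]⟩)
    (by
      rintro c ⟨a, -, h⟩
      obtain ⟨h1, h2⟩ := Prod.mk.inj h
      rw [h2, (map_eq_zero _).1 h1.symm, y.ev_zero])
  exact ⟨P, fun a ha => hP (_, _) ⟨a, ha, rfl⟩⟩

omit [Algebra k L] [Algebra L Ω] [IsScalarTower k L Ω] [Field L] in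
theorem rd_lt {P : KP k Ω} {a : Ω} (h : P.Rd a 0) : P.O.valuation a < 1 := by
  obtain ⟨h1, h2⟩ := h
  exact (P.ker ⟨a, h1⟩).1 h2

omit [Algebra k L] [Algebra L Ω] [IsScalarTower k L Ω] [Field L] in
theorem rd_one {P : KP k Ω} {a : Ω} {c : k} (h : P.Rd a c) (hc : c ≠ 0) :
    P.O.valuation a = 1 := by
  obtain ⟨h1, h2⟩ := h
  refine le_antisymm ((P.O.valuation_le_one_iff a).2 h1) (not_lt.1 fun h3 => hc ?_)
  rw [← h2]
  exact (P.ker ⟨a, h1⟩).2 h3

omit [IsScalarTower k L Ω] in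
theorem exists_t {y : Place k L} (hy : y.Res) {P : KP k Ω}
    (hP : ∀ a : L, y.val a ≤ 1 → P.Rd (algebraMap L Ω a) (y.ev a)) :
    ∃ t : P.O.ValueGroup, t ≠ 0 ∧ t < 1 ∧
      ∀ a : L, a ≠ 0 → P.O.valuation (algebraMap L Ω a) = t ^ y.ord a := by
  obtain ⟨π, h0, h1, h2⟩ := y.exists_ord 1
  have h3 : y.val π < 1 := (y.val_lt_one (y.val_ne h0)).2 (by omega)
  have h4 : P.O.valuation (algebraMap L Ω π) ≠ 0 := by simpa using h0
  refine ⟨_, h4, rd_lt (by simpa only [y.ev_of_lt h3] using hP π h3.le), fun a ha => ?_⟩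
  have h5 : π ^ (-y.ord a) ≠ 0 := zpow_ne_zero _ h0
  have h6 : y.val (a * π ^ (-y.ord a)) = 1 := by
    rw [y.val_one_iff (y.val_ne (mul_ne_zero ha h5)), y.ord_mul' ha h5, y.ord_zpow, h2]
    ring
  have h7 := rd_one (hP _ h6.le) (hy.ev_ne_zero h6)
  rwa [map_mul, map_mul, map_zpow₀, map_zpow₀, zpow_neg, mul_inv_eq_one₀ (zpow_ne_zero _ h4)] at h7

end KP

section BCK

variable {k K Ω : Type} [Field k] [Field K] [Field Ω] [Algebra k K] [Algebra k Ω] (B : BCK k K Ω)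

theorem pl_ev (η : K →ₐ[k] Ω) (h : K) : (B.pl η).ev (algebraMap K B.F h) = η h :=
  Place.ev_eq _ (B.pl_val η h)

theorem pl_le (η : K →ₐ[k] Ω) (h : K) : (B.pl η).val (algebraMap K B.F h) ≤ 1 :=
  Place.le_of_sub_lt _ (B.pl_val η h)

theorem pl_ne_io (η : K →ₐ[k] Ω) (z : Place k K) : B.pl η ≠ B.io z := fun e => by
  obtain ⟨π, h0, h1, -⟩ := z.exists_ord (-1)
  have := pl_le B η π
  rw [e, B.io_val, h1, ← exp_zero, exp_le_exp] at this
  omega

theorem rp_pl {P : KP k Ω} (R : Red B.toBCD P) (η : K →ₐ[k] Ω) (z : Place k K)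
    (h : ∀ a, z.val a ≤ 1 → η a ∈ P.O) : R.rp (B.pl η) = z :=
  (Place.eq_of_le _ _ fun a ha => (R.rp_iff _ a).2 ⟨pl_le B η a, by
    rw [pl_ev]; exact h a ha⟩).symm

theorem rp_io {P : KP k Ω} (R : Red B.toBCD P) (z : Place k K) (hz : z.Res) :
    R.rp (B.io z) = z :=
  (Place.eq_of_le _ _ fun a ha => (R.rp_iff _ a).2 ⟨by rwa [B.io_val], by
    have : (B.io z).ev (algebraMap K B.F a) = algebraMap k Ω (z.ev a) := Place.ev_eq _ (by
      rw [← IsScalarTower.algebraMap_apply, IsScalarTower.algebraMap_apply k K B.F, ← map_sub,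
        B.io_val]
      exact hz.ev_spec ha)
    rw [this]
    exact P.mem _⟩).symm

theorem act_val (τ : Ω ≃ₐ[k] Ω) (w : Place Ω B.F) (h : K) (a : Ω) :
    (B.act τ • w).val (algebraMap K B.F h - algebraMap Ω B.F (τ a)) =
      w.val (algebraMap K B.F h - algebraMap Ω B.F a) := by
  rw [← smul_val_apply (B.act τ) w, map_sub (B.act τ).1, B.act_K, B.act_Ω]

theorem act_pl (τ : Ω ≃ₐ[k] Ω) (η : K →ₐ[k] Ω) (hτ : ∀ h, τ (η h) = η h) :
    B.act τ • B.pl η = B.pl η :=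
  (B.uniq _ _ fun h a ha => by
    rw [(B.pl η).const_eq ha (B.pl_val η h), ← hτ, act_val]
    exact B.pl_val η h).symm

theorem act_io (τ : Ω ≃ₐ[k] Ω) (z : Place k K) : B.act τ • B.io z = B.io z := by
  have h1 : ∀ h, (B.act τ • B.io z).val (algebraMap K B.F h) = z.val h := fun h => by
    simpa [B.io_val] using act_val B τ (B.io z) h 0
  rcases B.io_or (B.act τ • B.io z) with ⟨z', hz⟩ | h2
  · rw [← hz]
    congr 1
    ext h
    rw [← h1, ← hz, B.io_val]
  · obtain ⟨π, h0, h3, -⟩ := z.exists_ord 1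
    have := h2 π h0
    rw [h1, h3, ← exp_zero, exp_inj] at this
    omega

theorem act_ev (τ : Ω ≃ₐ[k] Ω) {w : Place Ω B.F} (hw : w.Res) {h : K}
    (h1 : w.val (algebraMap K B.F h) ≤ 1) :
    τ (w.ev (algebraMap K B.F h)) = (B.act τ • w).ev (algebraMap K B.F h) :=
  (Place.ev_eq _ (by rw [act_val]; exact hw.ev_spec h1)).symm

end BCK

section Key

variable {k K Ω : Type} [Field k] [IsAlgClosed k] [Field K] [Field Ω] [IsAlgClosed Ω]
  [Algebra k K] [Algebra k Ω] (B : BCK k K Ω)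

open Classical in
/-- The absolute value of a function with divisor `a - b + m E` at a point. -/
theorem disc_val (hD : StmtDISC) (hK : IsFF k K) {P : KP k Ω} (R : Red B.toBCD P) (Φ : R.G)
    (hΦ : R.red Φ ≠ 0) {a b ξ : Place Ω B.F} {m : ℤ} {E : Dv Ω B.F} (hm : m ≠ 0)
    (hdv : dv Ω (Φ : B.F) = single a 1 - single b 1 + m • E) (hξ : ξ.val (Φ : B.F) = 1)
    (ha : a ≠ ξ) (hb : b ≠ ξ) :
    ∃ s : K, (R.rp ξ).ord s = 1 ∧ ξ.val (algebraMap K B.F s) ≤ 1 ∧
      (∀ w ∈ E.support, w.val (algebraMap K B.F s) ≤ 1) ∧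
      (E.prod fun w n => (ξ.ev (algebraMap K B.F s) - w.ev (algebraMap K B.F s)) ^ n) ≠ 0 ∧
      P.O.valuation (ξ.ev (Φ : B.F)) =
        (if R.rp a = R.rp ξ then
          P.O.valuation (ξ.ev (algebraMap K B.F s) - a.ev (algebraMap K B.F s)) else 1) *
        (if R.rp b = R.rp ξ then
          P.O.valuation (ξ.ev (algebraMap K B.F s) - b.ev (algebraMap K B.F s)) else 1) ^ (-1 : ℤ) *
        P.O.valuation (E.prod fun w n =>
          (ξ.ev (algebraMap K B.F s) - w.ev (algebraMap K B.F s)) ^ n) ^ m := by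
  obtain ⟨s, hs0, hs⟩ := apx_ord (insert (R.rp ξ) (E.support.image R.rp))
    fun v => if v = R.rp ξ then 1 else 0
  have hs1 : (R.rp ξ).ord s = 1 := by simpa using hs _ (Finset.mem_insert_self _ _)
  have hs2 : (R.rp ξ).val s < 1 := (Place.val_lt_one _ (Place.val_ne _ hs0)).2 (by omega)
  have hs3 : ∀ w ∈ E.support, R.rp w ≠ R.rp ξ → (R.rp w).val s = 1 := fun w hw hne => by
    rw [Place.val_one_iff _ (Place.val_ne _ hs0)]
    simpa [hne] using hs _ (Finset.mem_insert_of_mem (Finset.mem_image_of_mem _ hw))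
  have hs4 : ∀ w, R.rp w = R.rp ξ → w.val (algebraMap K B.F s) ≤ 1 := fun w hw =>
    ((R.rp_iff w s).1 (by rw [hw]; exact hs2.le)).1
  obtain ⟨d1, d2⟩ := hD k K Ω B.toBCD P R hK B.ff ξ s hs1
  set S := algebraMap K B.F s with hS
  have hdvo : ∀ w, dv Ω (Φ : B.F) w = w.ord (Φ : B.F) := dv_apply (fins B.ff _)
  have hξ0 : dv Ω (Φ : B.F) ξ = 0 := by rw [hdvo]; exact ξ.ord_of_val_one hξ
  have hEξ : E ξ = 0 := by
    have := hξ0
    rw [hdv] at this
    simpa [single_apply, ha, hb, hm] using this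
  have hne : S - algebraMap Ω B.F (ξ.ev S) ≠ 0 := fun e => by
    have := d1 ξ rfl
    rw [e] at this
    simp at this
  have hin : ∀ w, R.rp w = R.rp ξ → w ≠ ξ → ξ.ev S - w.ev S ≠ 0 := fun w hw hwξ e => by
    have h1 := d1 w hw
    rw [if_neg hwξ, ← w.val_one_iff (w.val_ne hne), sub_eq_zero.1 e] at h1
    exact absurd h1 ((res B.ff w).ev_spec (hs4 w hw)).ne
  have hout : ∀ w ∈ E.support, R.rp w ≠ R.rp ξ → P.O.valuation (ξ.ev S - w.ev S) = 1 :=
    fun w hw hne => by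
      have h1 := rd_lt (by simpa only [Place.ev_of_lt _ hs2] using R.rp_ev ξ s hs2.le)
      have h2 := rd_one (R.rp_ev w s (hs3 w hw hne).le) ((res hK _).ev_ne_zero (hs3 w hw hne))
      rw [← hS] at h1 h2
      rw [Valuation.map_sub_eq_of_lt_right _ (by rwa [h2]), h2]
  have hall : ∀ w ∈ E.support, w ≠ ξ := fun w hw e => by
    rw [e, mem_support_iff] at hw
    exact hw hEξ
  let g : Place Ω B.F → P.O.ValueGroup := fun w =>
    if R.rp w = R.rp ξ ∧ w ≠ ξ then P.O.valuation (ξ.ev S - w.ev S) else 1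
  have hg : ∀ w, g w ≠ 0 := fun w => by
    by_cases h : R.rp w = R.rp ξ ∧ w ≠ ξ
    · simpa [g, h] using hin w h.1 h.2
    · simp [g, h]
  have hgE : ∀ w ∈ E.support, g w = P.O.valuation (ξ.ev S - w.ev S) := fun w hw => by
    by_cases h : R.rp w = R.rp ξ
    · simp [g, h, hall w hw]
    · simp [g, h, hout w hw h]
  have hV : P.O.valuation (E.prod fun w n => (ξ.ev S - w.ev S) ^ n) =
      E.prod fun w n => g w ^ n := by
    rw [Finsupp.prod, map_prod]
    exact Finset.prod_congr rfl fun w hw => by rw [map_zpow₀, ← hgE w hw]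
  refine ⟨s, hs1, hs4 ξ rfl, fun w hw => ?_, fun e => ?_, ?_⟩
  · by_cases h : R.rp w = R.rp ξ
    · exact hs4 w h
    · exact ((R.rp_iff w s).1 (hs3 w hw h).le).1
  · rw [e, map_zero] at hV
    exact Finset.prod_ne_zero_iff.2 (fun w _ => zpow_ne_zero _ (hg w)) hV.symm
  · have e1 : g a = if R.rp a = R.rp ξ then P.O.valuation (ξ.ev S - a.ev S) else 1 := by
      simp [g, ha]
    have e2 : g b = if R.rp b = R.rp ξ then P.O.valuation (ξ.ev S - b.ev S) else 1 := by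
      simp [g, hb]
    rw [hV, ← e1, ← e2, ← prod_split g hg, ← hdv, d2 Φ hΦ hξ, Finset.prod_filter, Finsupp.prod]
    refine Finset.prod_congr rfl fun w hw => ?_
    have hw1 : w ≠ ξ := fun e => by
      rw [e, mem_support_iff] at hw
      exact hw hξ0
    by_cases h : R.rp w = R.rp ξ
    · simp [g, h, hw1, hdvo]
    · simp [g, h]

omit [IsAlgClosed k] in
/-- The product over an invariant divisor is invariant. -/
theorem prod_fix (τ : Ω ≃ₐ[k] Ω) {ξ : Place Ω B.F} {E : Dv Ω B.F} {s : K}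
    (hξ : B.act τ • ξ = ξ) (hE : ∀ w, E (B.act τ • w) = E w)
    (h1 : ξ.val (algebraMap K B.F s) ≤ 1)
    (h2 : ∀ w ∈ E.support, w.val (algebraMap K B.F s) ≤ 1) :
    τ (E.prod fun w n => (ξ.ev (algebraMap K B.F s) - w.ev (algebraMap K B.F s)) ^ n) =
      E.prod fun w n => (ξ.ev (algebraMap K B.F s) - w.ev (algebraMap K B.F s)) ^ n := by
  rw [Finsupp.prod, map_prod]
  refine Finset.prod_equiv (MulAction.toPerm (B.act τ)) (fun w => ?_) fun w hw => ?_
  · simp [hE]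
  · rw [map_zpow₀, map_sub, act_ev B τ (res B.ff _) h1, act_ev B τ (res B.ff _) (h2 w hw), hξ,
      MulAction.toPerm_apply, hE]

omit [IsAlgClosed k] in
theorem inv_E {θ : SA Ω B.F} {Φ : B.F} (hΦ : θ.1 Φ = Φ) {a b : Place Ω B.F} {m : ℤ}
    {E : Dv Ω B.F} (hm : m ≠ 0) (hdv : dv Ω Φ = single a 1 - single b 1 + m • E)
    (ha : θ • a = a) (hb : θ • b = b) (w : Place Ω B.F) : E (θ • w) = E w := by
  classical
  have h1 : dv Ω Φ (θ • w) = dv Ω Φ w := by
    rw [dv_apply (fins B.ff _), dv_apply (fins B.ff _), ← smul_ord_apply θ w, hΦ]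
  have h2 : ∀ c, θ • c = c → (single c (1 : ℤ)) (θ • w) = single c (1 : ℤ) w := fun c hc => by
    have : c = θ • w ↔ c = w := by
      conv_lhs => rw [← hc]
      exact (MulAction.injective θ).eq_iff
    simp only [single_apply, this]
  rw [hdv] at h1
  simp only [Finsupp.add_apply, Finsupp.sub_apply, h2 a ha, h2 b hb, Finsupp.smul_apply,
    smul_eq_mul, add_right_inj] at h1
  exact mul_left_cancel₀ hm h1

variable [Algebra K Ω] [IsScalarTower k K Ω]

theorem zero_of_fix {l p : ℕ} [Fact l.Prime] {ζ : k}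
    {e : VV k K l →ₗ[ZMod l] VV k K l →ₗ[ZMod l] ZMod l} {x₀ : Place k K} (C : Coc B ζ e x₀)
    {L : IntermediateField K Ω} (hK : IsFF k K) (hζ : IsPrimitiveRoot ζ l) (hL : IsCov k l p L)
    (τ : Ω ≃ₐ[K] Ω) (hτ : ∀ y ∈ L, τ y = y) : C.c τ = 0 := by
  have hl : 0 < l := (Fact.out : l.Prime).pos
  refine C.nd _ fun b => ?_
  obtain ⟨f, hf, hf2⟩ := mem_VV.1 b.2
  obtain ⟨r, hr⟩ := IsAlgClosed.exists_pow_nat_eq (algebraMap K Ω f) hl
  have h1 := C.kum τ f ((dv k (f : K)).mapRange (· / l) (by simp)) b r ⟨hf.symm, by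
    ext v
    rw [Finsupp.smul_apply, mapRange_apply, dv_apply (fins hK _), smul_eq_mul,
      Int.mul_ediv_cancel' (hf2 v)]⟩ hr
  have hr0 : r ≠ 0 := by
    rintro rfl
    rw [zero_pow hl.ne', eq_comm, map_eq_zero] at hr
    exact f.ne_zero hr
  rw [hτ r (hL.mem f r f.ne_zero hf2 hr), eq_comm, mul_eq_right₀ hr0, ← map_one (algebraMap k Ω),
    (algebraMap k Ω).injective.eq_iff, hζ.pow_eq_one_iff_dvd] at h1
  exact (ZMod.val_eq_zero _).1 (Nat.eq_zero_of_dvd_of_lt h1 (ZMod.val_lt _))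

open Classical in
/-- The exponent modulo `l` of the absolute value of the function at a rational point. -/
theorem key (hD : StmtDISC) {l p : ℕ} [Fact l.Prime] {ζ : k}
    {e : VV k K l →ₗ[ZMod l] VV k K l →ₗ[ZMod l] ZMod l} {x₀ : Place k K} (C : Coc B ζ e x₀)
    {L : IntermediateField K Ω} (hK : IsFF k K) (hζ : IsPrimitiveRoot ζ l) (hL : IsCov k l p L)
    (hp : (p : ZMod l) ≠ 0) {P : KP k Ω} (R : Red B.toBCD P) {t : P.O.ValueGroup} (ht : t ≠ 0)
    (hLt : ∀ a ∈ L, a ≠ 0 → ∃ n : ℤ, P.O.valuation a = t ^ n) (Φ : R.G) (hΦ : R.red Φ ≠ 0)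
    (hdv : dv Ω (Φ : B.F) = dv Ω C.Φ) {ξ : Place Ω B.F} (hξ : ξ.val (Φ : B.F) = 1)
    (ha : B.pl (eta k K Ω) ≠ ξ) (hb : B.io x₀ ≠ ξ)
    (hfix : ∀ τ : Ω ≃ₐ[K] Ω, B.act (τ.restrictScalars k) • ξ = ξ) {ca cb : ZMod l}
    (hca : ∀ s : K, (R.rp ξ).ord s = 1 → R.rp (B.pl (eta k K Ω)) = R.rp ξ → Lg t p l
      (P.O.valuation (ξ.ev (algebraMap K B.F s) - (B.pl (eta k K Ω)).ev (algebraMap K B.F s))) ca)
    (hcb : ∀ s : K, (R.rp ξ).ord s = 1 → R.rp (B.io x₀) = R.rp ξ → Lg t p l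
      (P.O.valuation (ξ.ev (algebraMap K B.F s) - (B.io x₀).ev (algebraMap K B.F s))) cb) :
    Lg t p l (P.O.valuation (ξ.ev (Φ : B.F)))
      ((if R.rp (B.pl (eta k K Ω)) = R.rp ξ then ca else 0) -
        if R.rp (B.io x₀) = R.rp ξ then cb else 0) := by
  have hl : (l : ℤ) ≠ 0 := by exact_mod_cast (Fact.out : l.Prime).ne_zero
  obtain ⟨s, h1, h2, h3, h4, h5⟩ := disc_val B hD hK R Φ hΦ hl (hdv.trans C.div) hξ ha hb
  obtain ⟨j, hj⟩ := hL.ins _ fun τ hτ => prod_fix B (τ.restrictScalars k) (hfix τ)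
    (inv_E B (C.fix τ (zero_of_fix B C hK hζ hL τ hτ)) hl C.div
      (act_pl B _ _ fun h => τ.commutes h) (act_io B _ _)) h2 h3
  obtain ⟨n, hn⟩ := hLt _ (hj j le_rfl) (pow_ne_zero _ h4)
  rw [map_pow] at hn
  have e1 : Lg t p l (if R.rp (B.pl (eta k K Ω)) = R.rp ξ then P.O.valuation
      (ξ.ev (algebraMap K B.F s) - (B.pl (eta k K Ω)).ev (algebraMap K B.F s)) else 1)
      (if R.rp (B.pl (eta k K Ω)) = R.rp ξ then ca else 0) := by
    split_ifs with h
    exacts [hca s h1 h, Lg.one]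
  have e2 : Lg t p l (if R.rp (B.io x₀) = R.rp ξ then P.O.valuation
      (ξ.ev (algebraMap K B.F s) - (B.io x₀).ev (algebraMap K B.F s)) else 1)
      (if R.rp (B.io x₀) = R.rp ξ then cb else 0) := by
    split_ifs with h
    exacts [hcb s h1 h, Lg.one]
  have := (e1.mul ht (e2.zpow (-1))).mul ht (Lg.root hp hn)
  rwa [← h5, add_zero, Int.cast_neg, Int.cast_one, neg_one_mul, ← sub_eq_add_neg] at this

end Key

theorem ord (hC : StmtCHEV) (hR : StmtRED) (hD : StmtDISC) : StmtORD := by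
  intro k K Ω _ _ _ _ _ _ _ _ _ B l p q _ _ _ ζ e x₀ x₁ σ φ C L dn hK hlp hζ hq hx hφ hL hdn
    hξ1 hξ2 j H hj hH y
  classical
  have hp : (p : ZMod l) ≠ 0 := fun h => hlp ((Nat.prime_dvd_prime_iff_eq Fact.out Fact.out).1
    ((ZMod.natCast_eq_zero_iff _ _).1 h))
  have := hL.fd
  have hy : y.Res := res (hK.of_finite L) y
  have : IsScalarTower k L Ω := IsScalarTower.of_algebraMap_eq fun c => by
    rw [IsScalarTower.algebraMap_apply k K Ω, IsScalarTower.algebraMap_apply k K L]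
    rfl
  obtain ⟨P, hP⟩ := exists_P (Ω := Ω) hC y hy
  obtain ⟨t, ht0, ht1, ht⟩ := exists_t hy hP
  obtain ⟨R⟩ := hR k K Ω B.toBCD P hK
  set x := dn y with hxy
  have hyx : ∀ h : K, y.val (algebraMap K L h) = x.val h := fun h => by
    rw [(hdn y).2 h, pow_one]
  have hK1 : ∀ h : K, x.val h ≤ 1 → algebraMap K Ω h ∈ P.O := fun h hh =>
    (hP (algebraMap K L h) (by rwa [hyx])).1
  have hK2 : ∀ (h : K) (n : ℤ), n ≠ 0 → x.ord h = n →
      Lg t p l (P.O.valuation (algebraMap K Ω h)) n := fun h n hn hh => by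
    have h0 : h ≠ 0 := by
      rintro rfl
      exact hn (by simpa using hh.symm)
    have h1 := ht (algebraMap K L h) (by simpa using h0)
    rw [← IsScalarTower.algebraMap_apply, Place.ord, hyx, ← Place.ord, hh] at h1
    rw [h1]
    exact Lg.base n
  have hφo : ∀ h : K, x.ord (φ h) = q * (σ • x).ord h := fun h => by
    rw [hφ h, x.ord_pow]; rfl
  have ra : R.rp (B.pl (eta k K Ω)) = x := rp_pl B R _ _ hK1
  have rb : ∀ z, R.rp (B.io z) = z := fun z => rp_io B R z (res hK z)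
  have rξ : R.rp (B.pl ((eta k K Ω).comp φ)) = σ • x := rp_pl B R _ _ fun h hh =>
    hK1 (φ h) (by rw [hφ h, map_pow]; exact pow_le_one' hh q)
  obtain ⟨a, ha⟩ := R.norm C.Φ C.ne
  have ha0 : a ≠ 0 := by
    rintro rfl
    simp at ha
  let Φ : R.G := ⟨algebraMap Ω B.F a * C.Φ, (R.G.valuation_le_one_iff _).1 ha.le⟩
  have hΦ : R.red Φ ≠ 0 := fun h => absurd ((R.ker Φ).1 h) (not_lt.2 ha.ge)
  have hv : ∀ w : Place Ω B.F, w.val (Φ : B.F) = w.val C.Φ := fun w => by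
    show w.val (algebraMap Ω B.F a * C.Φ) = _
    rw [map_mul, w.triv a ha0, one_mul]
  have hdv : dv Ω (Φ : B.F) = dv Ω C.Φ := by
    ext w
    rw [dv_apply (fins B.ff _), dv_apply (fins B.ff _), Place.ord, hv, Place.ord]
  have hev : ∀ w : Place Ω B.F, w.val C.Φ = 1 → w.ev (Φ : B.F) = a * w.ev C.Φ := fun w hw => by
    show w.ev (algebraMap Ω B.F a * C.Φ) = _
    rw [(res B.ff w).ev_mul (w.const_le a) hw.le, w.ev_const]
  have hLt : ∀ b ∈ L, b ≠ 0 → ∃ n : ℤ, P.O.valuation b = t ^ n := fun b hb h0 =>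
    ⟨_, ht ⟨b, hb⟩ fun h => h0 (congrArg Subtype.val h)⟩
  have hio : ∀ (z : Place k K) (s : K), z.ord s = 1 → (B.io z).ev (algebraMap K B.F s) = 0 :=
    fun z s hs => Place.ev_of_lt _ (by
      have h0 : s ≠ 0 := by
        rintro rfl
        simp at hs
      rw [B.io_val, z.val_lt_one (z.val_ne h0)]; omega)
  have hne : B.pl (eta k K Ω) ≠ B.pl ((eta k K Ω).comp φ) := fun h => by
    obtain ⟨π, -, -, h1⟩ := x.exists_ord 1
    have h2 : algebraMap K Ω π = algebraMap K Ω (φ π) :=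
      (pl_ev B (eta k K Ω) π).symm.trans (by rw [h]; exact pl_ev B _ π)
    have h3 := hφo π
    rw [← (algebraMap K Ω).injective h2, h1] at h3
    have := Int.eq_one_of_mul_eq_one_right (Int.natCast_nonneg q) h3.symm
    omega
  have k1 := key B hD C hK hζ hL hp R ht0 hLt Φ hΦ hdv ((hv _).trans hξ1) hne
    (pl_ne_io B _ _).symm (fun τ => act_pl B _ _ fun h => τ.commutes (φ h)) (ca := 1) (cb := q)
    (fun s hs h => by
      rw [ra, rξ] at h
      rw [rξ] at hs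
      have h1 := hφo s
      rw [hs, mul_one] at h1
      rw [← h] at hs
      have h0 : s ≠ 0 := by
        rintro rfl
        simp at hs
      have h2 : x.val (φ s) < x.val s := by
        rw [x.val_eq (x.val_ne h0), x.val_lt_exp (x.val_ne (by simpa using h0)), h1, hs]
        omega
      have h3 := hK2 (φ s - s) 1 one_ne_zero (by
        rw [Place.ord, Valuation.map_sub_eq_of_lt_right _ h2, ← Place.ord, hs])
      rw [pl_ev, pl_ev]
      rwa [map_sub, Int.cast_one] at h3)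
    (fun s hs h => by
      rw [rb, rξ] at h
      rw [rξ] at hs
      have h3 := hK2 (φ s) q (by omega) (by rw [hφo, hs, mul_one])
      rw [pl_ev, hio _ _ (h ▸ hs), sub_zero]
      rwa [Int.cast_natCast] at h3)
  have k2 := key B hD C hK hζ hL hp R ht0 hLt Φ hΦ hdv ((hv _).trans hξ2) (pl_ne_io B _ _)
    (fun h => hx (B.io_inj h)) (fun τ => act_io B _ _) (ca := 1) (cb := 0)
    (fun s hs h => by
      rw [ra, rb] at h
      rw [rb] at hs
      have h3 := hK2 s 1 one_ne_zero (h ▸ hs)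
      rw [pl_ev, hio _ _ hs, zero_sub, Valuation.map_neg]
      rwa [Int.cast_one] at h3)
    (fun s _ h => absurd (by simpa only [rb] using h) hx)
  have e1 := (res B.ff _).ev_ne_zero hξ1
  have e2 := (res B.ff _).ev_ne_zero hξ2
  have hH0 : H ≠ 0 := fun h => by
    rw [h, eq_comm] at hH
    exact pow_ne_zero _ (div_ne_zero e1 e2) hH
  have k3 := (k1.mul ht0 (k2.zpow (-1))).zpow (p ^ j : ℕ)
  have e3 : P.O.valuation (algebraMap L Ω H) =
      (P.O.valuation ((B.pl ((eta k K Ω).comp φ)).ev (Φ : B.F)) *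
        P.O.valuation ((B.io x₁).ev (Φ : B.F)) ^ (-1 : ℤ)) ^ ((p ^ j : ℕ) : ℤ) := by
    rw [hev _ hξ1, hev _ hξ2, zpow_neg_one, ← div_eq_mul_inv, ← map_div₀,
      mul_div_mul_left _ _ ha0, zpow_natCast, ← map_pow, ← hH]
    rfl
  rw [← e3, ht H hH0, Int.cast_natCast, hj, one_mul, ra, rb, rb, rξ] at k3
  rw [(Lg.base _).uniq ht0 ht1 hp k3]
  simp only [ite_self, sub_zero, Int.cast_neg, Int.cast_one, neg_one_mul,
    eq_comm (a := x) (b := σ • x), eq_comm (a := x₀) (b := σ • x)]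
  ring

end Pool.Agent.MP_cce4c9_lc.H83
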