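import Pool.Agent.MP_cce4c9_lc.H87.SpecQ
import Pool.Agent.MP_cce4c9_lc.H7.Base

/-! Places, degrees and approximation on the ring of the curve, component by component. -/

set_option autoImplicit false

open WithZero Polynomial
open scoped IntermediateField

namespace Pool.Agent.MP_cce4c9_lc.H83

open Pool.Agent.MP_cce4c9_lc.H87 Pool.Agent.MP_cce4c9_lc.H7

section Fld

variable {k K : Type} [Field k] [Field K] [Algebra k K]

theorem apx_ne (S : Finset (Place k K)) (h : Place k K → K) (h0 : ∀ v ∈ S, v.val (h v) ≠ 0) :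
    ∃ y : K, y ≠ 0 ∧ ∀ v ∈ S, v.val (y - h v) < v.val (h v) := by
  rcases S.eq_empty_or_nonempty with rfl | ⟨v, hv⟩
  · exact ⟨1, one_ne_zero, by simp⟩
  obtain ⟨y, hy⟩ := apx S h fun v => v.ord (h v) + 1
  have key : ∀ v ∈ S, v.val (y - h v) < v.val (h v) := fun v hv =>
    (hy v hv).trans_lt (by rw [v.val_eq (h0 v hv), exp_lt_exp]; omega)
  refine ⟨y, fun e => ?_, key⟩
  have := key v hv
  rw [e, zero_sub, Valuation.map_neg] at this
  exact lt_irrefl _ this

theorem exists_zero [IsAlgClosed k] (hD : StmtDEG) (hK : IsFF k K) {s : K}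
    (hs : s ∉ Set.range (algebraMap k K)) : ∃ w : Place k K, w.val s < 1 := by
  have h1 := (hD k K hK).1 s hs
  have := hK.fd hs
  have h2 : 0 < Module.finrank k⟮s⟯ K := Module.finrank_pos
  have h0 : s ≠ 0 := fun e => hs ⟨0, by simp [e]⟩
  by_contra hc
  push Not at hc
  have h3 : dv k s ⊔ 0 = 0 := by
    ext w
    have := hc w
    rw [← not_lt, w.val_lt_one (w.val_ne h0), not_lt] at this
    rw [Finsupp.sup_apply, dv_ap hK]
    simpa using this
  rw [h3, map_zero] at h1
  omega

theorem lt_one_iff_inv (w : Place k K) {h : K} (h0 : h ≠ 0) :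
    w.val h < 1 ↔ ¬ w.val h⁻¹ ≤ 1 := by
  rw [map_inv₀, inv_le_one₀ (zero_lt_iff.2 (w.val_ne h0)), not_le]

end Fld

theorem card_le_degree {α : Type} (E : α →₀ ℤ) (S : Finset α) (h0 : 0 ≤ E)
    (h1 : ∀ v ∈ S, 1 ≤ E v) : (S.card : ℤ) ≤ E.degree := by
  have hs : S ⊆ E.support := fun v hv => Finsupp.mem_support_iff.2 (by have := h1 v hv; omega)
  calc (S.card : ℤ) = ∑ _v ∈ S, (1 : ℤ) := by simp
    _ ≤ ∑ v ∈ S, E v := Finset.sum_le_sum h1
    _ ≤ ∑ v ∈ E.support, E v :=
        Finset.sum_le_sum_of_subset_of_nonneg hs fun v _ _ => h0 v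
    _ = E.degree := rfl

theorem degree_nonneg {α : Type} (E : α →₀ ℤ) (h0 : 0 ≤ E) : 0 ≤ E.degree := by
  simpa using card_le_degree E ∅ h0 (by simp)

section Cmp

variable {k : Type} [Field k] {d m : ℕ} {f : k[X]} {C : Cv k d m f} (P : C.Cmp)

theorem phi_const (i : P.I) (c : k) :
    P.φ i (algebraMap k C.Q c) = algebraMap k (P.K i) c := by
  rw [IsScalarTower.algebraMap_apply k (RatFunc k) C.Q, AlgHom.commutes,
    ← IsScalarTower.algebraMap_apply]

theorem phi_ts (i : P.I) : P.φ i C.t * P.φ i C.s = 1 := by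
  rw [← map_mul, C.t_mul_s, map_one]

theorem phi_t (i : P.I) : P.φ i C.t = (P.φ i C.s)⁻¹ := eq_inv_of_mul_eq_one_left (phi_ts P i)

theorem phi_s_ne (i : P.I) : P.φ i C.s ≠ 0 := right_ne_zero_of_mul_eq_one (phi_ts P i)

theorem up_ord (i : P.I) (w : Place k (P.K i)) (y : C.Q) :
    (P.up ⟨i, w⟩).ord y = w.ord (P.φ i y) := by rw [Place.ord, P.up_val, Place.ord]

theorem up_cases (v : Place k C.Q) : ∃ i w, v = P.up ⟨i, w⟩ :=
  ⟨(P.up.symm v).1, (P.up.symm v).2, (P.up.apply_symm_apply v).symm⟩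

theorem up_inj (i : P.I) : Function.Injective fun w : Place k (P.K i) => P.up ⟨i, w⟩ :=
  P.up.injective.comp sigma_mk_injective

theorem mem_pre {S : Finset (Place k C.Q)} {i : P.I} {w : Place k (P.K i)} :
    w ∈ S.preimage (fun w => P.up ⟨i, w⟩) (up_inj P i).injOn ↔ P.up ⟨i, w⟩ ∈ S :=
  Finset.mem_preimage (f := fun w => P.up ⟨i, w⟩)

theorem glue (g : ∀ i, P.K i) : ∃ y : C.Q, ∀ i, P.φ i y = g i := by
  obtain ⟨y, hy⟩ := P.bij.2 g
  exact ⟨y, fun i => congrFun hy i⟩

theorem phi_ext {y y' : C.Q} (h : ∀ i, P.φ i y = P.φ i y') : y = y' := P.bij.1 (funext h)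

theorem unit_of {y : C.Q} (h : ∀ i, P.φ i y ≠ 0) : IsUnit y := by
  obtain ⟨z, hz⟩ := glue P fun i => (P.φ i y)⁻¹
  exact IsUnit.of_mul_eq_one z (phi_ext P fun i => by
    rw [map_mul, hz, map_one, mul_inv_cancel₀ (h i)])

theorem same_iff {i j : P.I} (w : Place k (P.K i)) (w' : Place k (P.K j)) :
    C.Same (P.up ⟨i, w⟩) (P.up ⟨j, w'⟩) ↔ i = j := by
  constructor
  · intro h
    by_contra hne
    obtain ⟨y, hy⟩ := glue P (Pi.single i 1)
    have := (h y).2 (by rw [P.up_val, hy, Pi.single_eq_of_ne (Ne.symm hne), map_zero])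
    rw [P.up_val, hy, Pi.single_eq_same, map_one] at this
    exact one_ne_zero this
  · rintro rfl y
    rw [P.up_val, P.up_val, Valuation.zero_iff, Valuation.zero_iff]

/-- The part of a divisor on one component. -/
noncomputable def part (i : P.I) : Dv k C.Q →+ Dv k (P.K i) :=
  Finsupp.comapDomain.addMonoidHom (up_inj P i)

theorem part_apply (i : P.I) (D : Dv k C.Q) (w : Place k (P.K i)) :
    part P i D w = D (P.up ⟨i, w⟩) := rfl

theorem degree_eq (D : Dv k C.Q) : D.degree = ∑ i, (part P i D).degree := by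
  induction D using Finsupp.induction_linear with
  | zero => simp
  | add a b ha hb => simp only [map_add, ha, hb, Finset.sum_add_distrib]
  | single v n =>
    obtain ⟨j, w, rfl⟩ := up_cases P v
    rw [Finset.sum_eq_single j]
    · have : part P j (Finsupp.single (P.up ⟨j, w⟩) n) = Finsupp.single w n := by
        ext w'
        rw [part_apply]
        exact Finsupp.single_apply_left (up_inj P j) w w' n
      rw [this, Finsupp.degree_single, Finsupp.degree_single]
    · intro i _ hij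
      have : part P i (Finsupp.single (P.up ⟨j, w⟩) n) = 0 := by
        ext w'
        rw [part_apply, Finsupp.single_eq_of_ne, Finsupp.zero_apply]
        exact fun e => hij (congrArg Sigma.fst (P.up.injective e))
      rw [this, map_zero]
    · simp

theorem factor {Ω : Type} [Field Ω] [Algebra (RatFunc k) Ω] (φ : C.Q →ₐ[RatFunc k] Ω) :
    ∃ (i : P.I) (ψ : P.K i →+* Ω), ∀ y, ψ (P.φ i y) = φ y := by
  choose ε hε using fun i : P.I => glue P (Pi.single i 1)
  have h1 : ∑ i, ε i = 1 := phi_ext P fun j => by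
    rw [map_sum, map_one, Finset.sum_eq_single j]
    · rw [hε, Pi.single_eq_same]
    · intro i _ hij
      rw [hε, Pi.single_eq_of_ne (Ne.symm hij)]
    · simp
  obtain ⟨i, hi⟩ : ∃ i, φ (ε i) ≠ 0 := by
    by_contra hc
    push Not at hc
    have := congrArg φ h1
    rw [map_sum, map_one, Finset.sum_eq_zero fun i _ => hc i] at this
    exact zero_ne_one this
  have hs : Function.Surjective (P.φ i : C.Q →+* P.K i) := fun x => by
    obtain ⟨y, hy⟩ := glue P (Pi.single i x)
    exact ⟨y, (hy i).trans (Pi.single_eq_same _ _)⟩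
  have hk : RingHom.ker (P.φ i : C.Q →+* P.K i) ≤ RingHom.ker (φ : C.Q →+* Ω) := fun y hy => by
    have h2 : P.φ i y = 0 := hy
    have h3 : y * ε i = 0 := phi_ext P fun j => by
      rw [map_mul, hε, map_zero]
      by_cases e : j = i
      · subst e
        rw [h2, zero_mul]
      · rw [Pi.single_eq_of_ne e, mul_zero]
    have h4 := congrArg φ h3
    rw [map_mul, map_zero] at h4
    exact (mul_eq_zero.1 h4).resolve_right hi
  refine ⟨i, (P.φ i : C.Q →+* P.K i).liftOfSurjective hs ⟨(φ : C.Q →+* Ω), hk⟩, fun y => ?_⟩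
  have := RingHom.liftOfSurjective_comp_apply (P.φ i : C.Q →+* P.K i) hs
    ⟨(φ : C.Q →+* Ω), hk⟩ y
  exact this

variable [IsAlgClosed k]

include P in
theorem fins_Q (y : C.Q) : (Function.support fun v : Place k C.Q => v.ord y).Finite := by
  refine (Set.finite_iUnion fun i : P.I =>
    (fins (P.ff i) (P.φ i y)).image fun w => P.up ⟨i, w⟩).subset fun v hv => ?_
  obtain ⟨i, w, rfl⟩ := up_cases P v
  refine Set.mem_iUnion.2 ⟨i, w, ?_, rfl⟩
  rw [Function.mem_support] at hv ⊢
  rwa [← up_ord]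

theorem part_dv (i : P.I) (y : C.Q) : part P i (dv k y) = dv k (P.φ i y) := by
  ext w
  rw [part_apply, dv_apply (fins_Q P y), dv_ap (P.ff i), up_ord]

theorem exists_inf (hD : StmtDEG) (i : P.I) :
    ∃ w : Place k (P.K i), 1 < (P.up ⟨i, w⟩).val C.t := by
  obtain ⟨w, hw⟩ := exists_zero hD (P.ff i) (P.rks i).1
  refine ⟨w, ?_⟩
  rw [P.up_val, phi_t, ← not_le, ← lt_one_iff_inv w (phi_s_ne P i)]
  exact hw

end Cmp

theorem qa : StmtDVR → StmtDEG → StmtQA := by
  intro hV hD k _ _ d m f C P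
  refine ⟨fun v h h1 => ?_, fins_Q P, fun y h => unit_of P fun i e => ?_,
    fun y h => phi_ext P fun i => ?_, ?_, fun u => ?_, ?_, fun S a h0 => ?_,
    fun D w κ v₀ S hD0 hw h0 hS => ?_, fun v₀ c => ?_, fun Ω _ _ _ _ φ O hc hr => ?_⟩
  · obtain ⟨i, w, rfl⟩ := up_cases P v
    rw [P.up_val] at h1
    obtain ⟨c, hc⟩ := res (P.ff i) w _ h1
    exact ⟨c, by rwa [P.up_val, map_sub, phi_const]⟩
  · obtain ⟨w, hw⟩ := exists_inf P hD i
    exact h _ hw (by rw [P.up_val, e, map_zero])
  · obtain ⟨w, hw⟩ := exists_inf P hD i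
    have := h _ hw
    rwa [P.up_val, Valuation.zero_iff, ← map_zero (P.φ i)] at this
  · rcases isEmpty_or_nonempty P.I with hI | ⟨⟨i⟩⟩
    · have h1 := P.rk
      have h2 : 0 < d ^ m := pow_pos (by have := C.hd; omega) m
      rw [Finset.univ_eq_empty, Finset.sum_empty] at h1
      omega
    · obtain ⟨w, hw⟩ := exists_inf P hD i
      exact ⟨_, hw⟩
  · rw [degree_eq P]
    exact Finset.sum_eq_zero fun i _ => by rw [part_dv, (hD k _ (P.ff i)).2]
  · rw [degree_eq P, ← P.rk, Nat.cast_sum]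
    refine Finset.sum_congr rfl fun i _ => ?_
    have : part P i C.Dinf = dv k (P.φ i C.s) ⊔ 0 := by
      ext w
      rw [← part_dv, part_apply, Cv.Dinf, Finsupp.sup_apply, Finsupp.sup_apply, part_apply]
      rfl
    rw [this, (hD k _ (P.ff i)).1 _ (P.rks i).1, (P.rks i).2.1]
  · choose g hg0 hg using fun i : P.I =>
      apx_ne (S.preimage (fun w => P.up ⟨i, w⟩) (up_inj P i).injOn)
        (fun w => P.φ i (a (P.up ⟨i, w⟩))) fun w hw => by
          rw [← P.up_val]
          exact h0 _ ((mem_pre P).1 hw)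
    obtain ⟨y, hy⟩ := glue P g
    obtain ⟨u, rfl⟩ := unit_of P (y := y) fun i => by rw [hy]; exact hg0 i
    refine ⟨u, fun v hv => ?_⟩
    obtain ⟨i, w, rfl⟩ := up_cases P v
    rw [P.up_val, P.up_val, map_sub, hy]
    exact hg i w ((mem_pre P).2 hv)
  · classical
    obtain ⟨i, w₀, rfl⟩ := up_cases P v₀
    rw [P.up_val, Valuation.ne_zero_iff] at h0
    set h := P.φ i (w - algebraMap k C.Q κ) with hh
    have hL : h ∈ LL (part P i D) := fun x => by
      rw [hh, ← P.up_val, part_apply]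
      refine Valuation.map_sub_le _ (hw _) ((Place.const_le _ κ).trans ?_)
      rw [← exp_zero, exp_le_exp]
      exact hD0 _
    have h1 := card_le_degree (dv k h + part P i D)
      (S.preimage (fun x => P.up ⟨i, x⟩) (up_inj P i).injOn)
      ((mem_LL_iff (P.ff i) h0).1 hL) fun x hx => by
        have h2 := (hS _ ((mem_pre P).1 hx)).2
        rw [P.up_val, ← hh, x.val_lt_one (x.val_ne h0)] at h2
        have h3 : 0 ≤ D (P.up ⟨i, x⟩) := hD0 _
        rw [Finsupp.add_apply, dv_ap (P.ff i), part_apply]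
        omega
    rw [map_add, (hD k _ (P.ff i)).2, zero_add] at h1
    have h4 : S.card ≤ (S.preimage (fun x => P.up ⟨i, x⟩) (up_inj P i).injOn).card := by
      refine le_trans (Finset.card_le_card fun v hv => ?_)
        (Finset.card_image_le (f := fun x => P.up ⟨i, x⟩))
      obtain ⟨j, x, rfl⟩ := up_cases P v
      obtain rfl := (same_iff P _ _).1 (hS _ hv).1
      exact Finset.mem_image.2 ⟨x, (mem_pre P).2 hv, rfl⟩
    have h5 : (part P i D).degree ≤ D.degree := by
      rw [degree_eq P D]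
      exact Finset.single_le_sum (f := fun j => (part P j D).degree)
        (fun j _ => degree_nonneg _ fun x => hD0 _) (Finset.mem_univ i)
    exact ((Int.ofNat_le.2 h4).trans h1).trans h5
  · obtain ⟨i, w₀, rfl⟩ := up_cases P v₀
    have hn : P.φ i (C.t - algebraMap k C.Q c) ∉ Set.range (algebraMap k (P.K i)) := by
      rintro ⟨c', hc'⟩
      refine (P.rks i).1 ⟨(c' + c)⁻¹, ?_⟩
      rw [map_sub, phi_const, eq_sub_iff_add_eq, phi_t] at hc'
      rw [map_inv₀, map_add, hc', inv_inv]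
    obtain ⟨w, hw⟩ := exists_zero hD (P.ff i) hn
    exact ⟨P.up ⟨i, w⟩, (same_iff P _ _).2 rfl, by rwa [P.up_val]⟩
  · obtain ⟨i, ψ, hψ⟩ := factor P φ
    obtain ⟨w, hw⟩ := hV k (P.K i) (P.ff i) (O.comap ψ) (fun c => by
      rw [ValuationSubring.mem_comap, ← phi_const, hψ,
        IsScalarTower.algebraMap_apply k (RatFunc k) C.Q, AlgHom.commutes,
        ← IsScalarTower.algebraMap_apply]
      exact hc c) (fun e => by
      obtain ⟨r, hr⟩ := hr
      have : P.φ i (algebraMap (RatFunc k) C.Q r) ∈ O.comap ψ := by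
        rw [e]; exact ValuationSubring.mem_top _
      rw [ValuationSubring.mem_comap, hψ, AlgHom.commutes] at this
      exact hr this)
    refine ⟨P.up ⟨i, w⟩, fun y => ⟨by rw [P.up_val, ← hw, ValuationSubring.mem_comap, hψ], ?_⟩⟩
    rw [P.up_val, ← hψ]
    by_cases h0 : P.φ i y = 0
    · simp [h0]
    · have h1 : O.valuation (ψ (P.φ i y)) ≠ 0 := by simpa using h0
      rw [lt_one_iff_inv w h0, ← hw, ValuationSubring.mem_comap, ← O.valuation_le_one_iff,
        map_inv₀, map_inv₀, inv_le_one₀ (zero_lt_iff.2 h1), not_le]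

end Pool.Agent.MP_cce4c9_lc.H83
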